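import Pool.Agent.W300.FT.Stm

/-!
# FT-LOC5: equivariance of the local sets
-/

set_option autoImplicit false

namespace Pool.Agent.W357.FT

open MeasureTheory ProbabilityTheory Pool.Agent.W300.FT

theorem edist_map_le {V : Type} {G : SimpleGraph V} (f : G →g G) (u v : V) :
    G.edist (f u) (f v) ≤ G.edist u v := by
  unfold SimpleGraph.edist
  refine le_iInf (fun w => iInf_le_of_le (w.map f) ?_)
  simp

theorem dist_map_eq {V : Type} {G : SimpleGraph V} (φ : G ≃g G) (u v : V) :
    G.dist (φ u) (φ v) = G.dist u v := by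
  have h1 : G.edist (φ u) (φ v) ≤ G.edist u v := edist_map_le φ.toHom u v
  have h2 : G.edist u v ≤ G.edist (φ u) (φ v) := by
    have h3 := edist_map_le φ.symm.toHom (φ u) (φ v)
    have e1 : φ.symm.toHom (φ u) = u := φ.symm_apply_apply u
    have e2 : φ.symm.toHom (φ v) = v := φ.symm_apply_apply v
    rw [e1, e2] at h3
    exact h3
  unfold SimpleGraph.dist
  rw [le_antisymm h1 h2]

theorem mix_comp {V : Type} {G : SimpleGraph V} (φ : G ≃g G) (m : ℕ) (v : V)
    (y q : V → unitInterval) :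
    mix (Bal G m v) (fun u => y (φ u)) (fun u => q (φ u)) =
      fun u => mix (Bal G m (φ v)) y q (φ u) := by
  funext u
  have h : (φ u ∈ Bal G m (φ v)) ↔ u ∈ Bal G m v := by
    unfold Bal
    simp only [Set.mem_setOf_eq]
    rw [dist_map_eq]
  unfold mix
  by_cases hu : u ∈ Bal G m v
  · rw [if_pos hu, if_pos (h.2 hu)]
  · rw [if_neg hu, if_neg (fun hh => hu (h.1 hh))]

instance (V : Type) : IsProbabilityMeasure (PI V) := by
  unfold PI; infer_instance

theorem loc5 (hmix : S_MIX) (hsh : S_SHIFT) : S_LOC5 := by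
  intro V G F hV hF φ h m v
  have h1 : ∀ᵐ p ∂((PI V).prod (PI V)),
      F (fun w => mix (Bal G m (φ v)) p.1 p.2 (φ w)) =
        fun w => F (mix (Bal G m (φ v)) p.1 p.2) (φ w) :=
    (hmix V (Bal G m (φ v)) hV).quasiMeasurePreserving.ae h
  have h2 := Measure.ae_ae_of_ae_prod h1
  -- the relabelling of pairs
  have hT : MeasurePreserving (fun p : (V → unitInterval) × (V → unitInterval) =>
      ((fun u => p.1 (φ u)), (fun u => p.2 (φ u)))) ((PI V).prod (PI V)) ((PI V).prod (PI V)) :=
    (hsh V φ.toEquiv hV).prod (hsh V φ.toEquiv hV)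
  have hTi : MeasurePreserving (fun p : (V → unitInterval) × (V → unitInterval) =>
      ((fun u => p.1 (φ.symm u)), (fun u => p.2 (φ.symm u)))) ((PI V).prod (PI V))
      ((PI V).prod (PI V)) :=
    (hsh V φ.symm.toEquiv hV).prod (hsh V φ.symm.toEquiv hV)
  filter_upwards [h2] with y hy
  have a1 : ∀ᵐ q ∂((PI V).prod (PI V)),
      F (fun w => mix (Bal G m (φ v)) y q.1 (φ w)) =
        fun w => F (mix (Bal G m (φ v)) y q.1) (φ w) :=
    Measure.quasiMeasurePreserving_fst.ae hy
  have a2 : ∀ᵐ q ∂((PI V).prod (PI V)),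
      F (fun w => mix (Bal G m (φ v)) y q.2 (φ w)) =
        fun w => F (mix (Bal G m (φ v)) y q.2) (φ w) :=
    Measure.quasiMeasurePreserving_snd.ae hy
  have key : ∀ᵐ q ∂((PI V).prod (PI V)),
      (F (mix (Bal G m v) (fun u => y (φ u)) (fun u => q.1 (φ u))) v =
        F (mix (Bal G m v) (fun u => y (φ u)) (fun u => q.2 (φ u))) v ↔
      F (mix (Bal G m (φ v)) y q.1) (φ v) = F (mix (Bal G m (φ v)) y q.2) (φ v)) := by
    filter_upwards [a1, a2] with q hq1 hq2
    rw [mix_comp, mix_comp, hq1, hq2]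
  constructor
  · intro hl
    change ∀ᵐ p ∂((PI V).prod (PI V)), F (mix (Bal G m v) (fun u => y (φ u)) p.1) v =
      F (mix (Bal G m v) (fun u => y (φ u)) p.2) v at hl
    have h3 := hT.quasiMeasurePreserving.ae hl
    change ∀ᵐ q ∂((PI V).prod (PI V)), F (mix (Bal G m (φ v)) y q.1) (φ v) =
      F (mix (Bal G m (φ v)) y q.2) (φ v)
    filter_upwards [h3, key] with q hq hk
    exact hk.1 hq
  · intro hr
    change ∀ᵐ q ∂((PI V).prod (PI V)), F (mix (Bal G m (φ v)) y q.1) (φ v) =
      F (mix (Bal G m (φ v)) y q.2) (φ v) at hr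
    have h3 : ∀ᵐ q ∂((PI V).prod (PI V)),
        F (mix (Bal G m v) (fun u => y (φ u)) (fun u => q.1 (φ u))) v =
        F (mix (Bal G m v) (fun u => y (φ u)) (fun u => q.2 (φ u))) v := by
      filter_upwards [hr, key] with q hq hk
      exact hk.2 hq
    have h4 := hTi.quasiMeasurePreserving.ae h3
    change ∀ᵐ p ∂((PI V).prod (PI V)), F (mix (Bal G m v) (fun u => y (φ u)) p.1) v =
      F (mix (Bal G m v) (fun u => y (φ u)) p.2) v
    filter_upwards [h4] with p hp
    have e1 : ∀ r : V → unitInterval, (fun u => r (φ.symm (φ u))) = r := by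
      intro r
      funext u
      rw [φ.symm_apply_apply]
    simp only [e1] at hp
    exact hp

end Pool.Agent.W357.FT
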